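import Pool.Agent.H34C.Tr

/-!
Functionals of locally maximal mass.  The argument is helper24's `ETSC/Mass.lean` (sign coherence,
helper72, note 3133), with a maximum only over the functionals constant on `P_l`.
-/

set_option autoImplicit false
set_option linter.unusedSectionVars false
set_option linter.unusedVariables false
set_option linter.unusedSimpArgs false
set_option linter.unnecessarySeqFocus false

namespace Pool.Agent.H34C

open QS
open Pool.Agent.Helper58.PLine (QData)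
open Pool.Agent.ETCP
open Pool.Agent.ETSC

variable {V Q : Type} [AddCommGroup V] [Module (ZMod 2) V] {S : QData V Q}

/-- the sum over the pairs with a given value -/
noncomputable def Iq (S : QData V Q) [Fintype V] (q : Q) (l : Dl V) : ℤ := ∑ a : V, inn S q l a

theorem Iq_pos [Fintype V] {q : Q} {l : Dl V} {x v : V} (hx : PP S l x) (hv : S.q x v = q) :
    0 < sg (l v) * Iq S q l := by
  unfold Iq
  rw [Finset.mul_sum]
  exact Finset.sum_pos' (fun a _ => inn_sg hx hv a) ⟨x, Finset.mem_univ _, inn_sg_pos hx hv⟩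

theorem Ph_const [Fintype V] (q : Q) {β γ : Dl V} {c : ZMod 2} (hc : ∀ a, PP S γ a → β a = c) :
    Ph S q β γ = sg c * Iq S q γ := by
  rw [Ph_inn, Iq, Finset.mul_sum]
  apply Finset.sum_congr rfl
  intro a _
  by_cases h : PP S γ a
  · rw [hc a h]
  · rw [inn_not h, mul_zero, mul_zero]

/-- **Key Lemma**: `β` constant on `P_γ` and `γ` constant on `P_β` -/
theorem keyS [Finite V] {β γ : Dl V} {c d : ZMod 2}
    (hc : ∀ a, PP S γ a → β a = c) (hd : ∀ a, PP S β a → γ a = d) {x y : V} (hx : PP S β x)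
    (hy : PP S γ y) : PP S (β + γ) (x + y) := by
  classical
  have := Fintype.ofFinite V
  have i1 := Iq_pos (q := S.z) (v := 0) hx (S.q_zero x)
  have i2 := Iq_pos (q := S.z) (v := 0) hy (S.q_zero y)
  rw [map_zero, sg_zero, one_mul] at i1 i2
  have k1 := Ph_const (S := S) S.z hc
  rw [Ph_symm, Ph_const S.z hd] at k1
  intro v hv
  have e : S.q y v = S.q x v := (q_eq' hv).symm
  have j1 := Iq_pos (q := S.q x v) (v := v) hx rfl
  have j2 := Iq_pos (q := S.q x v) (v := v) hy e
  have k3 := Ph_const (S := S) (S.q x v) hc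
  rw [Ph_symm, Ph_const _ hd] at k3
  rw [LinearMap.add_apply]
  have hgoal : β v = γ v := by
    apply sg_inj
    rcases sg_cases c with a | a <;> rcases sg_cases d with b | b <;>
      rw [a, b] at k1 k3 <;> rcases sg_cases (β v) with a' | a' <;>
      rcases sg_cases (γ v) with b' | b' <;> rw [a'] at j1 <;> rw [b'] at j2 <;>
      rw [a', b'] <;> exfalso <;> omega
  rw [hgoal, CharTwo.add_self_eq_zero]

/-! ### Theorem C from its hypotheses -/

/-- the hypotheses of Theorem C -/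
structure HC (S : QData V Q) (E : Submodule (ZMod 2) (Dl V)) : Prop where
  k : ∀ β ∈ E, ∀ γ ∈ E, β ≠ 0 → γ ≠ 0 → β ≠ γ → ∀ x y, PP S β x → PP S γ y →
    PP S (β + γ) (x + y)
  m : ∀ β ∈ E, β ≠ 0 → ∀ μ ∈ E, ∀ x y, PP S β x → PP S β y → μ (x + y) = 0
  c : ∀ β ∈ E, β ≠ 0 → ∀ μ : Dl V, (∀ x y, PP S β x → PP S β y → μ (x + y) = 0) → μ ∈ E
  f : ∀ β ∈ E, β ≠ 0 → ∃ γ ∈ E, γ ≠ 0 ∧ β ≠ γ
  n : ∀ β ∈ E, β ≠ 0 → ∃ x, PP S β x

theorem HC.clA {E : Submodule (ZMod 2) (Dl V)} (hE : HC S E) {β γ : Dl V} (hβ : β ∈ E)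
    (hβ0 : β ≠ 0) (hγ : γ ∈ E) (hγ0 : γ ≠ 0) (hne : β ≠ γ)
    {x y y' : V} (hx : PP S β x) (hy : PP S γ y) (hy' : PP S γ y') : PP S β (x + (y + y')) := by
  have hs : β + γ ≠ 0 := fun h => hne (eo h)
  have h1 := hE.k β hβ γ hγ hβ0 hγ0 hne x y hx hy
  have hne' : β + γ ≠ γ := by
    intro h
    apply hβ0
    have h' : β + γ = 0 + γ := by rw [zero_add, h]
    exact add_right_cancel h'
  have h2 := hE.k _ (E.add_mem hβ hγ) γ hγ hs hγ0 hne' _ y' h1 hy'
  rw [add_self', add_assoc] at h2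
  exact h2

theorem HC.clB {E : Submodule (ZMod 2) (Dl V)} (hE : HC S E) {β : Dl V} (hβ : β ∈ E)
    (hβ0 : β ≠ 0) {x d : V} (hx : PP S β x) (hd : d ∈ An E) : PP S β (x + d) := by
  obtain ⟨γ, hγ, hγ0, hne⟩ := hE.f β hβ hβ0
  let T : Submodule (ZMod 2) V :=
    { carrier := {t | ∀ x, PP S β x → PP S β (x + t)}
      add_mem' := by
        intro a b ha hb x hx
        rw [← add_assoc]
        exact hb _ (ha _ hx)
      zero_mem' := by
        intro x hx
        rwa [add_zero]
      smul_mem' := by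
        intro c a ha x hx
        rcases z2 c with rfl | rfl
        · rw [zero_smul, add_zero]
          exact hx
        · rw [one_smul]
          exact ha x hx }
  have hT : Submodule.span (ZMod 2) {t | ∃ y y', PP S γ y ∧ PP S γ y' ∧ t = y + y'} ≤ T := by
    rw [Submodule.span_le]
    rintro t ⟨y, y', h1, h2, rfl⟩ x hx
    exact hE.clA hβ hβ0 hγ hγ0 hne hx h1 h2
  have hd' : d ∈ Submodule.span (ZMod 2) {t | ∃ y y', PP S γ y ∧ PP S γ y' ∧ t = y + y'} := by
    by_contra hn
    obtain ⟨μ, h1, h2⟩ := ETC.exists_dual_sep hn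
    have h3 : μ ∈ E := hE.c γ hγ hγ0 μ fun y y' hy hy' =>
      h2 _ (Submodule.subset_span ⟨y, y', hy, hy', rfl⟩)
    rw [mem_An.1 hd μ h3] at h1
    exact zero_ne_one h1
  exact hT hd' x hx

/-- **Theorem C from its hypotheses** -/
theorem HC.atom [Finite V] {E : Submodule (ZMod 2) (Dl V)} (hE : HC S E) :
    ∃ ω ∈ R S, LinearMap.range ω = E ∧ ∀ q, ∀ β ∈ E, β ≠ 0 → (PP S β q ↔ ω q = β) := by
  classical
  have hfin : Module.Finite (ZMod 2) V := Module.Finite.of_finite
  let xf : E → V := fun β => if h : (β : Dl V) = 0 then 0 else (hE.n β β.2 h).choose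
  have xf0 : ∀ β : E, (β : Dl V) = 0 → xf β = 0 := fun β h => dif_pos h
  have xf1 : ∀ β : E, (β : Dl V) ≠ 0 → PP S β (xf β) := by
    intro β h
    have e : xf β = (hE.n β β.2 h).choose := dif_neg h
    rw [e]
    exact (hE.n β β.2 h).choose_spec
  let A := An E
  have e2 : ∀ a b : V, a + b ∈ A → A.mkQ a = A.mkQ b := by
    intro a b h
    rw [← sub_eq_zero, ← map_sub, ZModModule.sub_eq_add]
    exact (Submodule.Quotient.mk_eq_zero A).2 h
  have e3 : ∀ a b : V, A.mkQ a = A.mkQ b → a + b ∈ A := by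
    intro a b h
    rw [← sub_eq_zero, ← map_sub, ZModModule.sub_eq_add] at h
    exact (Submodule.Quotient.mk_eq_zero A).1 h
  have clC : ∀ β ∈ E, β ≠ 0 → ∀ x y, PP S β x → PP S β y → x + y ∈ A :=
    fun β hβ hβ0 x y hx hy => mem_An.2 fun μ hμ => hE.m β hβ hβ0 μ hμ x y hx hy
  let f0 : E →+ V ⧸ A := AddMonoidHom.mk' (fun β => A.mkQ (xf β)) (by
    intro β γ
    show A.mkQ (xf (β + γ)) = A.mkQ (xf β) + A.mkQ (xf γ)
    rw [← map_add]
    apply e2
    by_cases hβ : (β : Dl V) = 0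
    · have e : β + γ = γ := Subtype.ext (by
        show (β : Dl V) + γ = γ
        rw [hβ, zero_add])
      rw [e, xf0 β hβ, zero_add, ZModModule.add_self]
      exact A.zero_mem
    by_cases hγ : (γ : Dl V) = 0
    · have e : β + γ = β := Subtype.ext (by
        show (β : Dl V) + γ = β
        rw [hγ, add_zero])
      rw [e, xf0 γ hγ, add_zero, ZModModule.add_self]
      exact A.zero_mem
    by_cases hbg : (β : Dl V) = γ
    · have e : β = γ := Subtype.ext hbg
      have e' : ((β + γ : E) : Dl V) = 0 := by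
        show (β : Dl V) + γ = 0
        rw [hbg, ZModModule.add_self]
      rw [xf0 _ e', e, ZModModule.add_self, zero_add]
      exact A.zero_mem
    · have hs : ((β + γ : E) : Dl V) ≠ 0 := fun h => hbg (eo h)
      have h1 := hE.k β β.2 γ γ.2 hβ hγ hbg _ _ (xf1 β hβ) (xf1 γ hγ)
      exact clC _ (β + γ).2 hs _ _ (xf1 _ hs) h1)
  let f : E →ₗ[ZMod 2] V ⧸ A := f0.toZModLinearMap 2
  have hf : ∀ β : E, f β = A.mkQ (xf β) := fun β => rfl
  have hinj : Function.Injective f := by
    rw [← LinearMap.ker_eq_bot, LinearMap.ker_eq_bot']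
    intro β hβ
    by_contra h
    have h0 : (β : Dl V) ≠ 0 := fun h' => h (Subtype.ext h')
    rw [hf] at hβ
    have h1 : xf β ∈ A := (Submodule.Quotient.mk_eq_zero A).1 hβ
    have h2 := hE.clB β.2 h0 (xf1 β h0) h1
    rw [ZModModule.add_self] at h2
    exact PP_ne h0 h2 rfl
  have hdim : Module.finrank (ZMod 2) E = Module.finrank (ZMod 2) (V ⧸ A) := by
    have h1 := Subspace.finrank_add_finrank_dualCoannihilator_eq (K := ZMod 2) (V := V) E
    have h2 := Submodule.finrank_quotient_add_finrank A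
    change Module.finrank (ZMod 2) E + Module.finrank (ZMod 2) A = _ at h1
    omega
  let g := f.linearEquivOfInjective hinj hdim
  have hg : ∀ β : E, g β = A.mkQ (xf β) := fun β => rfl
  let ω : Fm V := (E.subtype ∘ₗ (g.symm : (V ⧸ A) →ₗ[ZMod 2] E)) ∘ₗ A.mkQ
  have hω : ∀ q, ω q = ((g.symm (A.mkQ q) : E) : Dl V) := fun q => rfl
  have hiff : ∀ q, ∀ β ∈ E, β ≠ 0 → (PP S β q ↔ ω q = β) := by
    intro q β hβ hβ0
    have h1 := xf1 ⟨β, hβ⟩ hβ0
    rw [hω]
    constructor
    · intro h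
      have h2 : A.mkQ q = g ⟨β, hβ⟩ := by
        rw [hg]
        exact e2 _ _ (clC β hβ hβ0 _ _ h h1)
      rw [h2, LinearEquiv.symm_apply_apply]
    · intro h
      have h2 : g.symm (A.mkQ q) = ⟨β, hβ⟩ := Subtype.ext h
      have h3 : A.mkQ q = g ⟨β, hβ⟩ := by rw [← h2, LinearEquiv.apply_symm_apply]
      rw [hg] at h3
      have h4' := e3 _ _ h3
      have h5 := hE.clB hβ hβ0 h1 h4'
      rw [add_comm q, ← add_assoc, ZModModule.add_self, zero_add] at h5
      exact h5
  have hmem : ∀ q, ω q ∈ E := fun q => (g.symm (A.mkQ q)).2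
  refine ⟨ω, ?_, ?_, hiff⟩
  · intro x v hxv
    by_cases h : ω x = 0
    · rw [h, LinearMap.zero_apply]
    · exact (hiff x _ (hmem x) h).2 rfl v hxv
  · apply le_antisymm
    · rintro _ ⟨q, rfl⟩
      exact hmem q
    · intro β hβ
      by_cases h : β = 0
      · rw [h]
        exact Submodule.zero_mem _
      · obtain ⟨x, hx⟩ := hE.n β hβ h
        exact ⟨x, (hiff x β hβ h).1 hx⟩

/-! ### functionals of maximal mass -/

/-- the functionals constant on `P_l` -/
def El (S : QData V Q) (l : Dl V) : Submodule (ZMod 2) (Dl V) where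
  carrier := {μ | ∀ x y, PP S l x → PP S l y → μ (x + y) = 0}
  add_mem' := by
    intro a b ha hb x y hx hy
    rw [LinearMap.add_apply, ha x y hx hy, hb x y hx hy, add_zero]
  zero_mem' := fun x y _ _ => rfl
  smul_mem' := by
    intro c a ha x y hx hy
    rw [LinearMap.smul_apply, ha x y hx hy, smul_zero]

theorem PP_ker (he : S.e = 0) {l : Dl V} {x : V} (h : PP S l x) : l x = 0 := h x (C.self he x)

theorem self_El (he : S.e = 0) (l : Dl V) : l ∈ El S l := fun x y hx hy => by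
  rw [map_add, PP_ker he hx, PP_ker he hy, add_zero]

theorem El_const {l μ : Dl V} (h : μ ∈ El S l) {x0 : V} (hx0 : PP S l x0) :
    ∀ x, PP S l x → μ x = μ x0 := fun x hx => by
  have := h x x0 hx hx0
  rw [map_add] at this
  exact z2add this

/-- the mass of `P_l` -/
noncomputable def mass (S : QData V Q) [Fintype V] (l : Dl V) : ℤ := Iq S S.z l

/-- `l ≠ 0` has maximal mass among the functionals constant on `P_l` -/
def LM (S : QData V Q) [Fintype V] (l : Dl V) : Prop :=
  l ≠ 0 ∧ ∀ g ∈ El S l, g ≠ 0 → mass S g ≤ mass S l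

theorem mass_nonneg [Fintype V] (l : Dl V) : 0 ≤ mass S l := Finset.sum_nonneg fun a _ => inn_z l a

theorem mass_pos [Fintype V] {l : Dl V} {x : V} (hx : PP S l x) : 0 < mass S l := by
  have i1 := Iq_pos (q := S.z) (v := 0) hx (S.q_zero x)
  rw [map_zero, sg_zero, one_mul] at i1
  exact i1

theorem exists_of_mass_pos [Fintype V] {l : Dl V} (h : 0 < mass S l) : ∃ x, PP S l x := by
  classical
  by_contra hn
  push Not at hn
  unfold mass Iq at h
  rw [Finset.sum_eq_zero fun x _ => inn_not (hn x)] at h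
  exact lt_irrefl _ h

/-- a functional constant on `P_l` has maximal mass too, and `l` is constant on its set -/
theorem LM.step [Fintype V] {l γ : Dl V} (hl : LM S l) (hγ : γ ∈ El S l) (hγ0 : γ ≠ 0)
    {x0 : V} (hx0 : PP S l x0) : mass S γ = mass S l ∧ ∀ x, PP S γ x → l x = γ x0 := by
  classical
  have h1 : Ph S S.z γ l = sg (γ x0) * mass S l := Ph_const S.z (El_const hγ hx0)
  have h2 : Ph S S.z γ l = ∑ x : V, sg (l x) * inn S S.z γ x := by rw [Ph_symm, Ph_inn]
  have h3 : ∑ x : V, (1 - sg (γ x0) * sg (l x)) * inn S S.z γ x = mass S γ - mass S l := by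
    have e : ∑ x : V, (1 - sg (γ x0) * sg (l x)) * inn S S.z γ x =
        mass S γ - sg (γ x0) * Ph S S.z γ l := by
      rw [h2, mass, Iq, Finset.mul_sum, ← Finset.sum_sub_distrib]
      apply Finset.sum_congr rfl
      intro x _
      ring
    rw [e, h1, ← mul_assoc, sg_mul_self, one_mul]
  have h4 : ∀ x ∈ (Finset.univ : Finset V), 0 ≤ (1 - sg (γ x0) * sg (l x)) * inn S S.z γ x := by
    intro x _
    apply mul_nonneg
    · rcases sg_cases (γ x0) with a | a <;> rcases sg_cases (l x) with b | b <;> rw [a, b] <;>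
        norm_num
    · exact inn_z γ x
  have h5 := Finset.sum_nonneg h4
  have h6 := hl.2 γ hγ hγ0
  have h7 : mass S γ = mass S l := by omega
  refine ⟨h7, fun x hx => ?_⟩
  have h8 : ∑ x : V, (1 - sg (γ x0) * sg (l x)) * inn S S.z γ x = 0 := by omega
  have h9 := (Finset.sum_eq_zero_iff_of_nonneg h4).1 h8 x (Finset.mem_univ _)
  have hp := inn_z_pos hx
  have h10 : 1 - sg (γ x0) * sg (l x) = 0 := by
    rcases mul_eq_zero.1 h9 with h | h
    · exact h
    · omega
  apply sg_inj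
  rcases sg_cases (γ x0) with a | a <;> rcases sg_cases (l x) with b | b <;>
    rw [a, b] at h10 <;> rw [a, b]
  · norm_num at h10
  · norm_num at h10

theorem LM.El_le [Fintype V] (he : S.e = 0) {l γ : Dl V} (hl : LM S l) (hγ : γ ∈ El S l)
    (hγ0 : γ ≠ 0) {x0 : V} (hx0 : PP S l x0) : El S γ = El S l := by
  by_cases hlg : l = γ
  · rw [hlg]
  obtain ⟨m1, c1⟩ := hl.step hγ hγ0 hx0
  have hs : l + γ ∈ El S l := Submodule.add_mem _ (self_El he l) hγ
  have hs0 : l + γ ≠ 0 := fun h => hlg (eo h)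
  obtain ⟨m2, c2⟩ := hl.step hs hs0 hx0
  obtain ⟨w0, hw0⟩ : ∃ x, PP S (l + γ) x := exists_of_mass_pos (by rw [m2]; exact mass_pos hx0)
  -- `γ` is constant on `P_(l+γ)`
  have c3 : ∀ a, PP S (l + γ) a → γ a = (l + γ) x0 := by
    intro a ha
    have h1 := PP_ker he ha
    rw [LinearMap.add_apply] at h1
    rw [← c2 a ha]
    exact (z2add h1).symm
  have c4 : ∀ a, PP S γ a → (l + γ) a = γ x0 := by
    intro a ha
    rw [LinearMap.add_apply, PP_ker he ha, add_zero, c1 a ha]
  have c5 : ∀ a, PP S l a → (l + γ) a = (l + γ) x0 := fun a ha => El_const hs hx0 a ha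
  apply le_antisymm
  · intro μ hμ x y hx hy
    have h1 := keyS (S := S) (β := l) (γ := l + γ) c2 c5 hx hw0
    have h2 := keyS (S := S) (β := l) (γ := l + γ) c2 c5 hy hw0
    rw [← add_assoc, ZModModule.add_self, zero_add] at h1 h2
    have h3 := hμ _ _ h1 h2
    rw [add_add_add_comm, ZModModule.add_self, add_zero] at h3
    exact h3
  · intro μ hμ x y hx hy
    have h1 := keyS (S := S) (β := γ) (γ := l + γ) c3 c4 hx hw0
    have h2 := keyS (S := S) (β := γ) (γ := l + γ) c3 c4 hy hw0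
    have e : γ + (l + γ) = l := by rw [add_comm, add_self']
    rw [e] at h1 h2
    have h3 := hμ _ _ h1 h2
    rw [add_add_add_comm, ZModModule.add_self, add_zero] at h3
    exact h3

/-- **a functional of locally maximal mass**: only `0` and `l` are constant on `P_l`, or `l` is in
the image of a perfect atom -/
theorem LM.atom [Fintype V] (he : S.e = 0) {l : Dl V} (hl : LM S l)
    (hx0 : ∃ x, PP S l x) (hf : ∃ γ ∈ El S l, γ ≠ 0 ∧ γ ≠ l) :
    ∃ ω ∈ R S, LinearMap.range ω = El S l ∧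
      ∀ q, ∀ β ∈ El S l, β ≠ 0 → (PP S β q ↔ ω q = β) := by
  obtain ⟨x0, hx0⟩ := hx0
  have hex : ∀ β ∈ El S l, β ≠ 0 → ∃ x, PP S β x := by
    intro β hβ hβ0
    have h1 := (hl.step hβ hβ0 hx0).1
    exact exists_of_mass_pos (by rw [h1]; exact mass_pos hx0)
  apply HC.atom
  refine ⟨?_, ?_, ?_, ?_, hex⟩
  · intro β hβ γ hγ hβ0 hγ0 _ x y hx hy
    have h1 : γ ∈ El S β := by rw [hl.El_le he hβ hβ0 hx0]; exact hγ
    have h2 : β ∈ El S γ := by rw [hl.El_le he hγ hγ0 hx0]; exact hβ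
    exact keyS (El_const h2 hy) (El_const h1 hx) hx hy
  · intro β hβ hβ0 μ hμ x y hx hy
    rw [← hl.El_le he hβ hβ0 hx0] at hμ
    exact hμ x y hx hy
  · intro β hβ hβ0 μ hμ
    rw [← hl.El_le he hβ hβ0 hx0]
    exact hμ
  · intro β hβ hβ0
    obtain ⟨γ, h1, h2, h3⟩ := hf
    by_cases h : β = l
    · exact ⟨γ, h1, h2, fun h' => h3 (by rw [← h', h])⟩
    · exact ⟨l, self_El he l, hl.1, h⟩

end Pool.Agent.H34C
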