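import Pool.Agent.ETSC.ThmC

/-!
Counting the pairs with a given quaternion, relative to a perfect atom.  No form space is assumed to
be large: `R S` is only the space of the forms which vanish on the commuting pairs.
-/

set_option autoImplicit false
set_option linter.unusedSectionVars false
set_option linter.unusedVariables false

namespace Pool.Agent.H34C

open QS
open Pool.Agent.Helper58.PLine (QData)
open Pool.Agent.ETCP
open Pool.Agent.ETSC

variable {V Q : Type} [AddCommGroup V] [Module (ZMod 2) V] {S : QData V Q}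

theorem sg_cases (a : ZMod 2) : sg a = 1 ∨ sg a = -1 := by
  revert a
  decide

theorem sg_inj {a b : ZMod 2} (h : sg a = sg b) : a = b := by
  revert a b
  decide

open Classical in
/-- the sum over the neighbours of `a` -/
noncomputable def inn (S : QData V Q) [Fintype V] (q : Q) (l : Dl V) (a : V) : ℤ :=
  ∑ b : V, if S.q a b = q then sg (l b) else 0

/-- the sum vanishes unless `l` vanishes on the annihilator of `a` -/
theorem inn_not [Fintype V] {q : Q} {l : Dl V} {a : V} (h : ¬ PP S l a) : inn S q l a = 0 := by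
  classical
  obtain ⟨k, hk, hk1⟩ : ∃ k, C S a k ∧ l k = 1 := by
    unfold PP at h
    push Not at h
    obtain ⟨k, h1, h2⟩ := h
    exact ⟨k, h1, z2ne h2⟩
  set T : ℤ := inn S q l a with hT
  have h5 : T = -T := by
    conv_lhs => rw [hT, inn]
    rw [← Equiv.sum_comp (Equiv.addRight k), hT, inn, ← Finset.sum_neg_distrib]
    apply Finset.sum_congr rfl
    intro v _
    show (if S.q a (v + k) = q then sg (l (v + k)) else 0) = -(if S.q a v = q then sg (l v) else 0)
    have e1 : S.q a (v + k) = S.q a v := by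
      apply q_eq_iff.2
      exact hk.of_eq rfl (by rw [add_comm v k, add_assoc, ZModModule.add_self, add_zero])
    rw [e1]
    by_cases hv : S.q a v = q
    · rw [if_pos hv, if_pos hv, map_add, sg_add, hk1, sg_one, mul_neg_one]
    · rw [if_neg hv, if_neg hv, neg_zero]
  omega

/-- the value of the sum -/
theorem inn_eq [Fintype V] {q : Q} {l : Dl V} {a b : V} (h : PP S l a) (hb : S.q a b = q) :
    inn S q l a = sg (l b) * (Nat.card (S.ann a) : ℤ) := by
  classical
  have e0 : inn S q l a = ∑ v : V, if C S a v then sg (l b) else 0 := by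
    rw [inn, ← Equiv.sum_comp (Equiv.addRight b)]
    apply Finset.sum_congr rfl
    intro v _
    show (if S.q a (v + b) = q then sg (l (v + b)) else 0) = if C S a v then sg (l b) else 0
    have e1 : S.q a (v + b) = q ↔ C S a v := by
      rw [← hb, q_eq_iff]
      constructor
      · intro h
        exact h.of_eq rfl (by rw [add_assoc, ZModModule.add_self, add_zero])
      · intro h
        exact h.of_eq rfl (by rw [add_assoc, ZModModule.add_self, add_zero])
    by_cases hv : C S a v
    · rw [if_pos (e1.2 hv), if_pos hv, map_add, h v hv, zero_add]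
    · rw [if_neg (fun h' => hv (e1.1 h')), if_neg hv]
  rw [e0]
  have e2 : ∀ v : V, (if C S a v then sg (l b) else 0) = sg (l b) * if C S a v then 1 else 0 := by
    intro v
    by_cases hv : C S a v
    · rw [if_pos hv, if_pos hv, mul_one]
    · rw [if_neg hv, if_neg hv, mul_zero]
  rw [Finset.sum_congr rfl fun v _ => e2 v, ← Finset.mul_sum, Finset.sum_boole,
    Nat.card_eq_fintype_card, Fintype.card_subtype]
  rfl

theorem inn_none [Fintype V] {q : Q} {l : Dl V} {a : V} (h : ∀ b, S.q a b ≠ q) :
    inn S q l a = 0 := by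
  classical
  unfold inn
  exact Finset.sum_eq_zero fun b _ => if_neg (h b)

theorem cpos [Finite V] (a : V) : (0 : ℤ) < Nat.card (S.ann a) := by
  exact_mod_cast Nat.card_pos

/-- a nonzero sum -/
theorem inn_ne [Fintype V] {q : Q} {l : Dl V} {a : V} (h : inn S q l a ≠ 0) :
    PP S l a ∧ ∃ b, S.q a b = q := by
  by_contra hc
  apply h
  by_cases h1 : PP S l a
  · apply inn_none
    intro b hb
    exact hc ⟨h1, b, hb⟩
  · exact inn_not h1

/-- for commuting pairs the sum is not negative -/
theorem inn_z [Fintype V] (l : Dl V) (a : V) : 0 ≤ inn S S.z l a := by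
  by_cases h : PP S l a
  · rw [inn_eq h (S.q_zero a), map_zero, sg_zero, one_mul]
    exact (cpos a).le
  · rw [inn_not h]

theorem inn_z_pos [Fintype V] {l : Dl V} {a : V} (h : PP S l a) : 0 < inn S S.z l a := by
  rw [inn_eq h (S.q_zero a), map_zero, sg_zero, one_mul]
  exact cpos a

open Classical in
/-- `Φ_q (α, β)` -/
noncomputable def Ph (S : QData V Q) [Fintype V] (q : Q) (α β : Dl V) : ℤ :=
  ∑ a : V, ∑ b : V, if S.q a b = q then sg (α a + β b) else 0

theorem Ph_inn [Fintype V] (q : Q) (α β : Dl V) :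
    Ph S q α β = ∑ a : V, sg (α a) * inn S q β a := by
  classical
  unfold Ph inn
  apply Finset.sum_congr rfl
  intro a _
  rw [Finset.mul_sum]
  apply Finset.sum_congr rfl
  intro b _
  by_cases h : S.q a b = q
  · rw [if_pos h, if_pos h, sg_add]
  · rw [if_neg h, if_neg h, mul_zero]

theorem Ph_symm [Fintype V] (q : Q) (β γ : Dl V) : Ph S q β γ = Ph S q γ β := by
  classical
  unfold Ph
  rw [Finset.sum_comm]
  apply Finset.sum_congr rfl
  intro a _
  apply Finset.sum_congr rfl
  intro b _
  rw [S.symm a b, add_comm]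

/-- characters -/
theorem sum_sg [Fintype V] (f : Dl V) :
    ∑ d : V, sg (f d) = open Classical in if f = 0 then (Fintype.card V : ℤ) else 0 := by
  classical
  by_cases h : f = 0
  · rw [if_pos h, h]
    simp [sg_zero]
  · rw [if_neg h]
    obtain ⟨k, hk⟩ : ∃ k, f k = 1 := by
      by_contra hc
      push Not at hc
      apply h
      apply LinearMap.ext
      intro x
      exact (z2 (f x)).resolve_right (hc x)
    set T : ℤ := ∑ d : V, sg (f d) with hT
    have h5 : T = -T := by
      conv_lhs => rw [hT]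
      rw [← Equiv.sum_comp (Equiv.addRight k), hT, ← Finset.sum_neg_distrib]
      apply Finset.sum_congr rfl
      intro v _
      show sg (f (v + k)) = -sg (f v)
      rw [map_add, hk, sg_add, sg_one, mul_neg_one]
    omega

/-! ### relative to a form -/

open Classical in
/-- the part over the coset of `c` -/
noncomputable def Z (S : QData V Q) [Fintype V] (ω : Fm V) (q : Q) (α l : Dl V) (c : V) : ℤ :=
  ∑ a : V, if ω a = ω c then sg (α a) * inn S q l a else 0

/-- Fourier inversion -/
theorem Z_inv [Fintype V] (he : S.e = 0) {ω : Fm V} (hω : ω ∈ R S) (q : Q) (α l : Dl V) (c : V) :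
    (Fintype.card V : ℤ) * Z S ω q α l c = ∑ d : V, sg (ω d c) * Ph S q (α + ω d) l := by
  classical
  have e1 : ∀ d : V, sg (ω d c) * Ph S q (α + ω d) l =
      ∑ a : V, sg (α a) * inn S q l a * sg (ω (c + a) d) := by
    intro d
    rw [Ph_inn, Finset.mul_sum]
    apply Finset.sum_congr rfl
    intro a _
    rw [LinearMap.add_apply, sg_add, map_add, LinearMap.add_apply, sg_add, R_symm he hω c d,
      R_symm he hω a d]
    ring
  rw [Finset.sum_congr rfl fun d _ => e1 d, Finset.sum_comm, Z, Finset.mul_sum]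
  apply Finset.sum_congr rfl
  intro a _
  rw [← Finset.mul_sum, sum_sg]
  by_cases h : ω a = ω c
  · rw [if_pos h, if_pos (by rw [map_add, h, ZModModule.add_self])]
    ring
  · rw [if_neg h, if_neg (by
      intro h'
      rw [map_add] at h'
      exact h (eo h').symm)]
    ring

/-- equal quaternions have equal values under forms -/
theorem form_eq (he : S.e = 0) {ω : Fm V} (hω : ω ∈ R S) {x v z w : V} (h : S.q x v = S.q z w) :
    ω x v = ω z w := by
  obtain ⟨u, h1, h2⟩ := S.link x v z w h
  have e1 : ω x (v + u) = 0 := hω _ _ (q_eq_iff.1 h1)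
  have e2 : ω z (w + u) = 0 := hω _ _ (q_eq_iff.1 h2)
  have e3 : ω (x + z) u = 0 := hω _ _ (q_eq'_iff.1 (by rw [← h1, h, h2]))
  rw [map_add] at e1 e2 e3
  rw [LinearMap.add_apply] at e3
  rw [z2add e1, z2add e2, z2add e3]

/-- the quaternion `q` is killed by the form -/
def Nul (S : QData V Q) (ω : Fm V) (q : Q) : Prop := ∀ a b, S.q a b = q → ω a b = 0

theorem nul_z {ω : Fm V} (hω : ω ∈ R S) : Nul S ω S.z := fun a b h => hω a b h

theorem Z_per [Fintype V] {ω : Fm V} {q : Q} (hq : Nul S ω q) (α l : Dl V) (c : V) :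
    Z S ω q α (l + ω c) c = Z S ω q α l c := by
  classical
  unfold Z
  apply Finset.sum_congr rfl
  intro a _
  by_cases h : ω a = ω c
  · rw [if_pos h, if_pos h]
    congr 1
    unfold inn
    apply Finset.sum_congr rfl
    intro b _
    by_cases hb : S.q a b = q
    · rw [if_pos hb, if_pos hb, LinearMap.add_apply, ← h, hq a b hb, add_zero]
    · rw [if_neg hb, if_neg hb]
  · rw [if_neg h, if_neg h]

/-- perfect atoms -/
structure PA (S : QData V Q) (ω : Fm V) : Prop where
  mem : ω ∈ R S
  ne : ω ≠ 0
  per : ∀ q, ∀ β ∈ LinearMap.range ω, β ≠ 0 → PP S β q → ω q = β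

theorem Ph_shift [Fintype V] (he : S.e = 0) {ω : Fm V} (A : PA S ω) (q : Q) (l : Dl V) {d : V}
    (hd : ω d ≠ 0) (h : V) : Ph S q (ω d) (l + ω h) = sg (ω h d) * Ph S q (ω d) l := by
  rw [Ph_symm, Ph_symm q (ω d) l, Ph_inn, Ph_inn, Finset.mul_sum]
  apply Finset.sum_congr rfl
  intro a _
  by_cases h0 : inn S q (ω d) a = 0
  · rw [h0, mul_zero, mul_zero, mul_zero]
  · have h1 := (inn_ne h0).1
    have h2 : ω a = ω d := A.per a _ ⟨d, rfl⟩ hd h1
    have h3 : ω h a = ω h d := by
      rw [R_symm he A.mem h a, h2, R_symm he A.mem h d]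
    rw [LinearMap.add_apply, sg_add, h3]
    ring

theorem sg_mul_self (a : ZMod 2) : sg a * sg a = 1 := sg_sq a

/-- **the identity** -/
theorem Z_two [Fintype V] (he : S.e = 0) {ω : Fm V} (A : PA S ω) {q : Q} (hq : Nul S ω q)
    (l : Dl V) (h : V) :
    2 * Z S ω q 0 l h = Z S ω q 0 l 0 + Z S ω q 0 (l + ω h) 0 := by
  classical
  set N : ℤ := (Fintype.card V : ℤ) with hN
  set K : ℤ := ∑ d : V, if ω d = 0 then Ph S q 0 (l + ω h) - Ph S q 0 l else 0 with hK
  have key : ∀ c : V, N * Z S ω q 0 (l + ω h) c = N * Z S ω q 0 l (c + h) + K := by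
    intro c
    rw [hN, Z_inv he A.mem, Z_inv he A.mem, hK, ← Finset.sum_add_distrib]
    apply Finset.sum_congr rfl
    intro d _
    rw [zero_add]
    by_cases hd : ω d = 0
    · rw [if_pos hd, hd, LinearMap.zero_apply, LinearMap.zero_apply, sg_zero]
      ring
    · rw [if_neg hd, Ph_shift he A q l hd h, map_add, sg_add, R_symm he A.mem h d]
      ring
  have k1 := key 0
  have k2 := key h
  rw [zero_add] at k1
  rw [ZModModule.add_self, Z_per hq] at k2
  have hpos : 0 < N := by
    rw [hN]
    exact_mod_cast Fintype.card_pos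
  have k3 : N * (2 * Z S ω q 0 l h) = N * (Z S ω q 0 l 0 + Z S ω q 0 (l + ω h) 0) := by
    rw [mul_add, k1]
    linarith
  exact mul_left_cancel₀ hpos.ne' k3

end Pool.Agent.H34C
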