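import Pool.Agent.H34C.Cnt

/-!
Cosets of the kernel of a perfect atom.
-/

set_option autoImplicit false
set_option linter.unusedSectionVars false
set_option linter.unusedVariables false

namespace Pool.Agent.H34C

open QS
open Pool.Agent.Helper58.PLine (QData)
open Pool.Agent.ETCP
open Pool.Agent.ETSC

variable {V Q : Type} [AddCommGroup V] [Module (ZMod 2) V] {S : QData V Q}

/-- all the inner sums have the same sign -/
theorem inn_sg [Fintype V] {q : Q} {l : Dl V} {x v : V} (hx : PP S l x) (hv : S.q x v = q)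
    (a : V) : 0 ≤ sg (l v) * inn S q l a := by
  by_cases h0 : inn S q l a = 0
  · rw [h0, mul_zero]
  obtain ⟨h1, b, hb⟩ := inn_ne h0
  have e : l b = l v := lk1 (by rw [hb, hv]) h1 hx
  rw [inn_eq h1 hb, e, ← mul_assoc, sg_mul_self, one_mul]
  exact (cpos a).le

theorem inn_sg_pos [Fintype V] {q : Q} {l : Dl V} {x v : V} (hx : PP S l x) (hv : S.q x v = q) :
    0 < sg (l v) * inn S q l x := by
  rw [inn_eq hx hv, ← mul_assoc, sg_mul_self, one_mul]
  exact cpos x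

theorem Z0_sg [Fintype V] {ω : Fm V} {q : Q} {l : Dl V} {x v : V} (hx : PP S l x)
    (hv : S.q x v = q) (c : V) : 0 ≤ sg (l v) * Z S ω q 0 l c := by
  classical
  unfold Z
  rw [Finset.mul_sum]
  apply Finset.sum_nonneg
  intro a _
  by_cases h : ω a = ω c
  · rw [if_pos h, LinearMap.zero_apply, sg_zero, one_mul]
    exact inn_sg hx hv a
  · rw [if_neg h, mul_zero]

theorem Z0_sg_pos [Fintype V] {ω : Fm V} {q : Q} {l : Dl V} {x v : V} (hx : PP S l x)
    (hv : S.q x v = q) {c : V} (hc : ω x = ω c) : 0 < sg (l v) * Z S ω q 0 l c := by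
  classical
  unfold Z
  rw [Finset.mul_sum]
  apply Finset.sum_pos'
  · intro a _
    by_cases h : ω a = ω c
    · rw [if_pos h, LinearMap.zero_apply, sg_zero, one_mul]
      exact inn_sg hx hv a
    · rw [if_neg h, mul_zero]
  · refine ⟨x, Finset.mem_univ _, ?_⟩
    rw [if_pos hc, LinearMap.zero_apply, sg_zero, one_mul]
    exact inn_sg_pos hx hv

theorem Z0_ne [Fintype V] {ω : Fm V} {q : Q} {l : Dl V} {c : V} (h : Z S ω q 0 l c ≠ 0) :
    ∃ x, PP S l x ∧ (∃ v, S.q x v = q) ∧ ω x = ω c := by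
  classical
  by_contra hc
  apply h
  unfold Z
  apply Finset.sum_eq_zero
  intro a _
  by_cases h1 : ω a = ω c
  · rw [if_pos h1]
    by_cases h2 : inn S q l a = 0
    · rw [h2, mul_zero]
    · exact absurd ⟨a, (inn_ne h2).1, (inn_ne h2).2, h1⟩ hc
  · rw [if_neg h1]

/-- the sums for commuting pairs -/
theorem Zz_nonneg [Fintype V] (ω : Fm V) (l : Dl V) (c : V) : 0 ≤ Z S ω S.z 0 l c := by
  classical
  unfold Z
  apply Finset.sum_nonneg
  intro a _
  by_cases h : ω a = ω c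
  · rw [if_pos h, LinearMap.zero_apply, sg_zero, one_mul]
    exact inn_z l a
  · rw [if_neg h]

theorem Zz_pos [Fintype V] {ω : Fm V} {l : Dl V} {x c : V} (hx : PP S l x) (hc : ω x = ω c) :
    0 < Z S ω S.z 0 l c := by
  have h := Z0_sg_pos (q := S.z) (v := 0) hx (S.q_zero x) hc
  rw [map_zero, sg_zero, one_mul] at h
  exact h

theorem Zz_ex [Fintype V] {ω : Fm V} {l : Dl V} {c : V} (h : 0 < Z S ω S.z 0 l c) :
    ∃ x, PP S l x ∧ ω x = ω c := by
  obtain ⟨x, h1, _, h2⟩ := Z0_ne h.ne'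
  exact ⟨x, h1, h2⟩

/-- **Lemma C** -/
theorem lemC [Finite V] (he : S.e = 0) {ω : Fm V} (A : PA S ω) {l : Dl V} {d1 d2 h1 h2 : V}
    (k1 : ω d1 = 0) (k2 : ω d2 = 0) (p1 : PP S (l + ω h1) d1) (p2 : PP S (l + ω h2) d2)
    (hne : ω h1 ≠ ω h2) : ∃ d, ω d = 0 ∧ PP S l d := by
  classical
  have := Fintype.ofFinite V
  by_contra hno
  push Not at hno
  have hd0 : ω (h1 + h2) ≠ 0 := by
    intro h
    rw [map_add] at h
    exact hne (eo h)
  have hnp : ¬ PP S (ω (h1 + h2)) (d1 + d2) := by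
    intro h
    have h3 := A.per _ _ ⟨_, rfl⟩ hd0 h
    rw [map_add, k1, k2, add_zero] at h3
    exact hd0 h3.symm
  obtain ⟨v, hv, hv1⟩ : ∃ v, C S (d1 + d2) v ∧ ω (h1 + h2) v = 1 := by
    unfold PP at hnp
    push Not at hnp
    obtain ⟨k, a, b⟩ := hnp
    exact ⟨k, a, z2ne b⟩
  have hq : S.q d1 v = S.q d2 v := q_eq' hv
  have hNul : Nul S ω (S.q d1 v) := by
    intro a b hab
    rw [form_eq he A.mem hab, k1, LinearMap.zero_apply]
  have hsg : sg ((l + ω h1) v) = -sg ((l + ω h2) v) := by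
    have e : (l + ω h1) v = (l + ω h2) v + 1 := by
      rw [← hv1, LinearMap.add_apply, LinearMap.add_apply, map_add, LinearMap.add_apply]
      have : ω h2 v + ω h2 v = 0 := CharTwo.add_self_eq_zero _
      calc l v + ω h1 v = l v + ω h1 v + (ω h2 v + ω h2 v) := by rw [this, add_zero]
        _ = l v + ω h2 v + (ω h1 v + ω h2 v) := by ring
    rw [e, sg_add, sg_one, mul_neg_one]
  have hZ0 : Z S ω (S.q d1 v) 0 l 0 = 0 := by
    by_contra h
    obtain ⟨x, a, _, b⟩ := Z0_ne h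
    rw [map_zero] at b
    exact hno x b a
  have t1 := Z_two he A hNul l h1
  have t2 := Z_two he A hNul l h2
  rw [hZ0, zero_add] at t1 t2
  have s1 := Z0_sg_pos (ω := ω) (c := 0) (q := S.q d1 v) (v := v) p1 rfl (by rw [k1, map_zero])
  have s2 := Z0_sg_pos (ω := ω) (c := 0) p2 hq.symm (by rw [k2, map_zero])
  have ne1 : Z S ω (S.q d1 v) 0 l h1 ≠ 0 := by
    intro h
    rw [h, mul_zero] at t1
    rw [← t1, mul_zero] at s1
    exact lt_irrefl _ s1
  obtain ⟨x, hx, ⟨w, hw⟩, _⟩ := Z0_ne ne1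
  have u1 := Z0_sg (ω := ω) hx hw h1
  have u2 := Z0_sg (ω := ω) hx hw h2
  rw [hsg] at s1
  set s : ℤ := sg ((l + ω h2) v) with hs
  set t : ℤ := sg (l w) with ht
  set z1 : ℤ := Z S ω (S.q d1 v) 0 l h1
  set z2 : ℤ := Z S ω (S.q d1 v) 0 l h2
  rw [← t1] at s1
  rw [← t2] at s2
  have hs' : s = 1 ∨ s = -1 := sg_cases _
  have ht' : t = 1 ∨ t = -1 := sg_cases _
  rcases hs' with a | a <;> rcases ht' with b | b <;> rw [a] at s1 s2 <;> rw [b] at u1 u2 <;> omega

/-- **Lemma D**, first part: if `P_l` meets the kernel it meets every coset -/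
theorem lemD1 [Finite V] (he : S.e = 0) {ω : Fm V} (A : PA S ω) {l : Dl V} {d : V}
    (hd : ω d = 0) (hp : PP S l d) (h : V) : ∃ x, ω x = ω h ∧ PP S l x := by
  classical
  have := Fintype.ofFinite V
  have t := Z_two he A (nul_z A.mem) l h
  have s1 : 0 < Z S ω S.z 0 l 0 := Zz_pos hp (by rw [hd, map_zero])
  have s2 := Zz_nonneg (S := S) ω (l + ω h) 0
  have s3 : 0 < Z S ω S.z 0 l h := by omega
  obtain ⟨x, h1, h2⟩ := Zz_ex s3
  exact ⟨x, h2, h1⟩

/-- **Lemma D**, second part: `ω` is constant on `P_l` or `P_l` meets the kernel -/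
theorem lemD2 [Finite V] (he : S.e = 0) {ω : Fm V} (A : PA S ω) {l : Dl V} {x y : V}
    (hx : PP S l x) (hy : PP S l y) (hne : ω x ≠ ω y) : ∃ d, ω d = 0 ∧ PP S l d := by
  classical
  have := Fintype.ofFinite V
  by_contra hno
  have hZ0 : Z S ω S.z 0 l 0 = 0 := by
    by_contra h
    obtain ⟨x, a, _, b⟩ := Z0_ne h
    rw [map_zero] at b
    exact hno ⟨x, b, a⟩
  have t1 := Z_two he A (nul_z A.mem) l x
  have t2 := Z_two he A (nul_z A.mem) l y
  have s1 : 0 < Z S ω S.z 0 l x := Zz_pos hx rfl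
  have s2 : 0 < Z S ω S.z 0 l y := Zz_pos hy rfl
  obtain ⟨d1, a1, b1⟩ := Zz_ex (show 0 < Z S ω S.z 0 (l + ω x) 0 by omega)
  obtain ⟨d2, a2, b2⟩ := Zz_ex (show 0 < Z S ω S.z 0 (l + ω y) 0 by omega)
  rw [map_zero] at b1 b2
  exact hno (lemC he A b1 b2 a1 a2 hne)

/-- `ω` is constant on `P_l` -/
def Cst (S : QData V Q) (ω : Fm V) (l : Dl V) : Prop :=
  ∀ x y, PP S l x → PP S l y → ω x = ω y

/-- if `ω` is constant on `P_l` its value is not zero -/
theorem Cst.ne [Finite V] (he : S.e = 0) {ω : Fm V} (A : PA S ω) {l : Dl V} (hc : Cst S ω l)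
    {x : V} (hx : PP S l x) : ω x ≠ 0 := by
  intro h0
  obtain ⟨y, hy⟩ : ∃ y, ω y ≠ 0 := by
    by_contra hn
    push Not at hn
    exact A.ne (LinearMap.ext hn)
  obtain ⟨z, h1, h2⟩ := lemD1 he A h0 hx y
  rw [← h1, hc z x h2 hx, h0] at hy
  exact hy rfl

/-- if `P_l` does not meet the kernel then `ω` is constant on `P_l` -/
theorem cst_of [Finite V] (he : S.e = 0) {ω : Fm V} (A : PA S ω) {l : Dl V}
    (h : ∀ d, ω d = 0 → ¬ PP S l d) : Cst S ω l := by
  intro x y hx hy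
  by_contra hne
  obtain ⟨d, h1, h2⟩ := lemD2 he A hx hy hne
  exact h d h1 h2

end Pool.Agent.H34C
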