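import Pool.Agent.H34C.At

/-!
Domination: if on every `P_β` more than `0` and `β` is constant, then on every `P_β` a perfect atom
is constant, and every value `β` allowed at `x` is the value of a form.
-/

set_option autoImplicit false
set_option linter.unusedSectionVars false
set_option linter.unusedVariables false

namespace Pool.Agent.H34C

open QS
open Pool.Agent.Helper58.PLine (QData)
open Pool.Agent.ETCP
open Pool.Agent.ETSC

variable {V Q : Type} [AddCommGroup V] [Module (ZMod 2) V] {S : QData V Q}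

/-- on every nonempty `P_β` some functional besides `0`, `β` is constant -/
def NDc (S : QData V Q) : Prop :=
  ∀ β : Dl V, β ≠ 0 → (∃ x, PP S β x) → ∃ κ ∈ El S β, κ ≠ 0 ∧ κ ≠ β

theorem finite_Dl [Finite V] : Finite (Dl V) :=
  Finite.of_injective (fun f : Dl V => (f : V → ZMod 2)) DFunLike.coe_injective

/-- **Domination** -/
theorem domS [Finite V] (he : S.e = 0) (hN : NDc S) {β : Dl V} (hβ : β ≠ 0)
    (hx : ∃ x, PP S β x) : ∃ ω, PA S ω ∧ Cst S ω β := by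
  classical
  have := Fintype.ofFinite V
  have hf := finite_Dl (V := V)
  by_contra hbad
  obtain ⟨b, ⟨hb0, hbx, hb⟩, hmax⟩ := Set.exists_max_image
    {b : Dl V | b ≠ 0 ∧ (∃ x, PP S b x) ∧ ¬ ∃ ω, PA S ω ∧ Cst S ω b} (fun b => mass S b)
    (Set.toFinite _) ⟨β, hβ, hx, hbad⟩
  obtain ⟨x0, hx0⟩ := hbx
  apply hb
  by_cases hl : LM S b
  · obtain ⟨ω, h1, h2, h3⟩ := hl.atom he ⟨x0, hx0⟩ (hN b hb0 ⟨x0, hx0⟩)
    refine ⟨ω, ⟨h1, ?_, ?_⟩, ?_⟩
    · rintro rfl
      apply hb0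
      have h4 : b ∈ LinearMap.range (0 : Fm V) := by
        rw [h2]
        exact self_El he b
      obtain ⟨y, hy⟩ := h4
      exact hy.symm
    · intro q γ hγ hγ0 hp
      rw [h2] at hγ
      exact (h3 q γ hγ hγ0).1 hp
    · intro x y hx hy
      rw [(h3 x b (self_El he b) hb0).1 hx, (h3 y b (self_El he b) hb0).1 hy]
  · obtain ⟨κ, k1, k2, k3⟩ : ∃ κ ∈ El S b, κ ≠ 0 ∧ mass S b < mass S κ := by
      by_contra hn
      push Not at hn
      exact hl ⟨hb0, hn⟩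
    obtain ⟨y, hy⟩ := exists_of_mass_pos ((mass_nonneg b).trans_lt k3)
    have h4 : ∃ ω, PA S ω ∧ Cst S ω κ := by
      by_contra hn
      exact absurd (hmax κ ⟨k2, ⟨y, hy⟩, hn⟩) (not_le.2 k3)
    obtain ⟨ω, A, h5⟩ := h4
    exact ⟨ω, A, lemT he A hx0 (El_const k1 hx0) h5⟩

/-- **Lemma L** -/
theorem lemL [Finite V] (he : S.e = 0) (hN : NDc S) {β : Dl V} {x : V} (hx : PP S β x) :
    ∃ ρ ∈ R S, ρ x = β := by
  classical
  have := Fintype.ofFinite V
  have hf := finite_Dl (V := V)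
  by_contra hbad
  obtain ⟨b, ⟨x0, hx0, hb⟩, hmax⟩ := Set.exists_max_image
    {b : Dl V | ∃ x, PP S b x ∧ ¬ ∃ ρ ∈ R S, ρ x = b} (fun b => Set.ncard {y | PP S b y})
    (Set.toFinite _) ⟨β, x, hx, hbad⟩
  by_cases hb0 : b = 0
  · exact hb ⟨0, Submodule.zero_mem _, by rw [hb0]; rfl⟩
  obtain ⟨ω, A, hc⟩ := domS he hN hb0 ⟨x0, hx0⟩
  have hsub : {y | PP S b y} ⊆ {y | PP S (b + ω x0) y} := by
    intro y hy v hv
    rw [LinearMap.add_apply, hc x0 y hx0 hy, A.mem _ _ hv, hy v hv, add_zero]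
  -- an element of the kernel
  have t := Z_two he A (nul_z A.mem) b x0
  have s1 : 0 < Z S ω S.z 0 b x0 := Zz_pos hx0 rfl
  have s0 : Z S ω S.z 0 b 0 = 0 := by
    by_contra hn
    obtain ⟨y, a1, _, a2⟩ := Z0_ne hn
    rw [map_zero] at a2
    exact hc.ne he A a1 a2
  obtain ⟨d, d1, d2⟩ := Zz_ex (show 0 < Z S ω S.z 0 (b + ω x0) 0 by omega)
  rw [map_zero] at d2
  have hlt : Set.ncard {y | PP S b y} < Set.ncard {y | PP S (b + ω x0) y} := by
    apply Set.ncard_lt_ncard _ (Set.toFinite _)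
    refine ⟨hsub, fun h => ?_⟩
    exact hc.ne he A (h d1) d2
  by_cases h1 : ∃ ρ ∈ R S, ρ x0 = b + ω x0
  · obtain ⟨ρ, h2, h3⟩ := h1
    apply hb
    refine ⟨ρ + ω, (R S).add_mem h2 A.mem, ?_⟩
    rw [LinearMap.add_apply, h3, add_assoc, ZModModule.add_self, add_zero]
  · exact absurd (hmax _ ⟨x0, hsub hx0, h1⟩) (not_le.2 hlt)

end Pool.Agent.H34C
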