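import Pool.Agent.H34C.Ind

/-!
The ranges of all perfect atoms are independent, and the quaternions are determined by the forms.
-/

set_option autoImplicit false
set_option linter.unusedSectionVars false
set_option linter.unusedVariables false

namespace Pool.Agent.H34C

open Pool.Agent.ESL Pool.Agent.H34B
open Pool.Agent.Helper58.PLine (QData)
open scoped BigOperators

variable {V Q : Type} [AddCommGroup V] [Module (ZMod 2) V] [Finite V] {S : QData V Q}

theorem ind_all (he : S.e = 0) (hN : NDc S) : ∀ n, H34B.Ind (RS S) n := by
  classical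
  have hA := isAlt (S := S) he
  have hD := dom he hN
  intro n
  induction n with
  | zero => exact (ind_two hA).mono (Nat.zero_le _)
  | succ n ih =>
    intro T hT hTA β hβ hs w hw
    by_contra hcon
    -- all terms may be assumed nonzero
    have hnz : ∀ w ∈ T, β w ≠ 0 := by
      intro a ha h0
      have h1 := ih (T.erase a) (by
        have := Finset.card_erase_of_mem ha
        omega) (fun w hw => hTA w (Finset.mem_of_mem_erase hw)) β
        (fun w hw => hβ w (Finset.mem_of_mem_erase hw)) (by
          rw [← Finset.add_sum_erase T β ha, h0, zero_add] at hs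
          exact hs)
      apply hcon
      by_cases hwa : w = a
      · rw [hwa, h0]
      · exact h1 w (Finset.mem_erase.2 ⟨hwa, hw⟩)
    -- a second atom
    have h1 : ∃ b ∈ T, b ≠ w := by
      by_contra hc
      push Not at hc
      have : T = {w} := Finset.eq_singleton_iff_unique_mem.2 ⟨hw, hc⟩
      rw [this, Finset.sum_singleton] at hs
      exact hcon hs
    obtain ⟨b, hb, hbw⟩ := h1
    have hbT : b ∈ T.erase w := Finset.mem_erase.2 ⟨hbw, hb⟩
    -- the remaining atoms
    let T' := (T.erase w).erase b
    have hT'c : T'.card + 2 = T.card := by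
      have h1 := Finset.card_erase_add_one hw
      have h2 := Finset.card_erase_add_one hbT
      show ((T.erase w).erase b).card + 2 = T.card
      omega
    have hT'sub : ∀ a ∈ T', a ∈ T ∧ a ≠ w ∧ a ≠ b := by
      intro a ha
      have h1 := Finset.mem_erase.1 ha
      have h2 := Finset.mem_erase.1 h1.2
      exact ⟨h2.2, h2.1, h1.1⟩
    have hsum : β w + β b = ∑ a ∈ T', β a := by
      have h2 : β w + (β b + ∑ a ∈ T', β a) = 0 := by
        rw [← hs, ← Finset.add_sum_erase T β hw, ← Finset.add_sum_erase _ β hbT]
      rw [← add_assoc] at h2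
      exact eq_of_add h2
    have hwA := hTA w hw
    have hbA := hTA b hb
    -- the sum of the remaining atoms
    have hT'n : T'.card ≤ n := by omega
    have hrR : ∑ a ∈ T', a ∈ RS S := sum_mem_R (fun a ha => hTA a (hT'sub a ha).1)
    have hmem : β w + β b ∈ LinearMap.range (∑ a ∈ T', a) := by
      rw [hsum]
      exact sum_val_mem hA ih hT'n (fun a ha => hTA a (hT'sub a ha).1)
        (fun a ha => hβ a (hT'sub a ha).1)
    have hne0 : β w + β b ≠ 0 := by
      intro h0
      have h3 : β w = β b := eq_of_add h0
      exact hbw (atom_eq hA hbA hwA (hnz w hw) (h3 ▸ hβ b hb) (hβ w hw))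
    -- an element over `β w + β b`
    obtain ⟨x, hx⟩ : β w + β b ∈ LinearMap.range (w + b) := by
      rw [range_pair hA hwA hbA hbw.symm]
      exact Submodule.add_mem_sup (hβ w hw) (hβ b hb)
    have hsep : ∀ y z : ESL.D V, y ∈ LinearMap.range w → z ∈ LinearMap.range b → y + z = β w + β b →
        y = β w ∧ z = β b := by
      intro y z hy hz hyz
      have h1 : y + β w = z + β b := by
        have := congrArg (fun t => t + (z + β w)) hyz
        calc y + β w = (y + z) + (z + β w) := by
              rw [add_assoc y z, add_add_self]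
          _ = (β w + β b) + (z + β w) := this
          _ = z + β b + (β w + β w) := by abel
          _ = z + β b := by rw [add_self', add_zero]
      have h2 : y + β w = 0 := by
        by_contra h0
        exact hbw (atom_eq hA hbA hwA h0 (h1 ▸ Submodule.add_mem _ hz (hβ b hb))
          (Submodule.add_mem _ hy (hβ w hw)))
      have h3 : z + β b = 0 := by rw [← h1, h2]
      exact ⟨eq_of_add h2, eq_of_add h3⟩
    have hxw := hsep (w x) (b x) ⟨x, rfl⟩ ⟨x, rfl⟩ hx
    obtain ⟨v, hv, hdom⟩ := hD (β w + β b) hne0 ⟨x, w + b, (RS S).add_mem hwA.1 hbA.1, hx⟩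
    have hvle : LinearMap.range v ≤ LinearMap.range w ⊔ LinearMap.range b := by
      rw [← range_pair hA hwA hbA hbw.symm]
      exact hdom _ ((RS S).add_mem hwA.1 hbA.1) ⟨x, hx⟩
    -- `v = w` or `v = b`
    have hvwb : v = w ∨ v = b := by
      by_contra hc
      push Not at hc
      exact no_triple he hN hwA hbA hv hbw.symm (Ne.symm hc.1) (Ne.symm hc.2) hvle
    -- a summand inside the range of the others gives a shorter dependency
    have hfin : ∀ a ∈ T, a ∉ T' → β a ∈ LinearMap.range (∑ a ∈ T', a) → False := by
      intro a ha haT' hmem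
      obtain ⟨γ, hγ, hγs⟩ := mem_range_sum hmem
      let δ : ESL.Fm V → ESL.D V := fun t => if t = a then β a else γ t
      have h5 := ih (insert a T') (by rw [Finset.card_insert_of_notMem haT']; omega)
        (by
          intro t ht
          rcases Finset.mem_insert.1 ht with rfl | ht
          · exact hTA _ ha
          · exact hTA t (hT'sub t ht).1) δ
        (by
          intro t ht
          rcases Finset.mem_insert.1 ht with rfl | ht
          · show (if t = t then β t else γ t) ∈ _
            rw [if_pos rfl]; exact hβ t ha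
          · have : t ≠ a := fun he => haT' (he ▸ ht)
            show (if t = a then β a else γ t) ∈ _
            rw [if_neg this]; exact hγ t ht)
        (by
          rw [Finset.sum_insert haT']
          have e1 : δ a = β a := if_pos rfl
          have e2 : ∑ t ∈ T', δ t = ∑ t ∈ T', γ t := by
            apply Finset.sum_congr rfl
            intro t ht
            exact if_neg (fun he : t = a => haT' (he ▸ ht))
          rw [e1, e2, ← hγs, add_self'])
      have h6 := h5 a (Finset.mem_insert_self _ _)
      have e1 : δ a = β a := if_pos rfl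
      exact hnz a ha (e1 ▸ h6)
    rcases hvwb with rfl | rfl
    · -- `v = w`
      refine hfin v hw ?_ ?_
      · intro h; exact (hT'sub v h).2.1 rfl
      · exact hdom _ hrR hmem (hβ v hw)
    · refine hfin v hb ?_ ?_
      · intro h; exact (hT'sub v h).2.2 rfl
      · exact hdom _ hrR hmem (hβ v hb)

/-- all forms of `R` are killed if all perfect atoms are -/
theorem kill (he : S.e = 0) (hN : NDc S) {x v : V} (h : ∀ w, PAtom (RS S) w → w x v = 0) :
    ∀ r ∈ RS S, r x v = 0 := by
  intro r hr
  obtain ⟨T, hT, hTs⟩ := decomp' (isAlt (S := S) he) (dom he hN) hr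
  rw [hTs, LinearMap.sum_apply, LinearMap.sum_apply]
  exact Finset.sum_eq_zero fun w hw => h w (hT w hw).1

/-- commuting pairs are detected by the forms -/
theorem C_of_R (he : S.e = 0) (hN : NDc S) {x v : V} (h : ∀ r ∈ RS S, r x v = 0) :
    ETCP.C S x v := by
  let W : Submodule (ZMod 2) V :=
    { carrier := {v | ETCP.C S x v}
      add_mem' := fun ha hb => ETCP.C.add ha hb
      zero_mem' := S.q_zero x
      smul_mem' := by
        intro c a ha
        rcases ETSC.z2 c with rfl | rfl
        · rw [zero_smul]
          exact S.q_zero x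
        · rw [one_smul]
          exact ha }
  by_contra hn
  obtain ⟨β, hβ, h1⟩ := exists_sep (W := W) (x := v) hn
  obtain ⟨r, hr, hrx⟩ := lemL he hN (S := S) (β := β) (x := x) (fun u hu => hβ u hu)
  rw [← hrx, h r hr] at h1
  exact zero_ne_one h1

/-- **the form space is large** -/
theorem emb (he : S.e = 0) (hN : NDc S) : ETSC.Emb S := by
  classical
  intro x v z w hxz
  have : Fintype (ESL.Fm V) := Fintype.ofFinite _
  have hfin : Module.Finite (ZMod 2) V := Module.Finite.of_finite
  let At : Finset (ESL.Fm V) := Finset.univ.filter fun w => PAtom (RS S) w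
  have hAt : ∀ a, a ∈ At ↔ PAtom (RS S) a := by intro a; simp [At]
  let M : V →ₗ[ZMod 2] ESL.Fm V → ZMod 2 × ZMod 2 :=
    LinearMap.pi fun a => if a ∈ At then (a x).prod (a z) else 0
  let y : ESL.Fm V → ZMod 2 × ZMod 2 := fun a => if a ∈ At then (a x v, a z w) else 0
  have hy : y ∈ LinearMap.range M := by
    by_contra hn
    obtain ⟨μ, h1, h2⟩ := exists_sep hn
    let c : ESL.Fm V → ZMod 2 := fun a => μ (Pi.single a (1, 0))
    let d : ESL.Fm V → ZMod 2 := fun a => μ (Pi.single a (0, 1))
    have hμ : ∀ f : ESL.Fm V → ZMod 2 × ZMod 2, μ f = ∑ a, ((f a).1 * c a + (f a).2 * d a) := by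
      intro f
      conv_lhs => rw [← Finset.univ_sum_single f]
      rw [map_sum]
      apply Finset.sum_congr rfl
      intro a _
      have e : (Pi.single a (f a) : ESL.Fm V → ZMod 2 × ZMod 2) =
          (f a).1 • (Pi.single a (1, 0) : ESL.Fm V → ZMod 2 × ZMod 2) +
            (f a).2 • (Pi.single a (0, 1) : ESL.Fm V → ZMod 2 × ZMod 2) := by
        rw [← Pi.single_smul, ← Pi.single_smul, ← Pi.single_add]
        congr 1
        ext <;> simp
      rw [e, map_add, map_smul, map_smul, smul_eq_mul, smul_eq_mul]
    -- the relation
    have hrel : ∑ a ∈ At, a (c a • x + d a • z) = 0 := by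
      apply LinearMap.ext
      intro t
      have h3 := h1 (M t) ⟨t, rfl⟩
      rw [hμ] at h3
      rw [LinearMap.sum_apply, LinearMap.zero_apply, ← h3, ← Finset.sum_filter_add_sum_filter_not Finset.univ
        (fun a => a ∈ At) (fun a => (M t a).1 * c a + (M t a).2 * d a)]
      rw [Finset.sum_eq_zero (s := Finset.univ.filter fun a => ¬ a ∈ At), add_zero]
      · rw [Finset.filter_mem_eq_inter, Finset.univ_inter]
        apply Finset.sum_congr rfl
        intro a ha
        have e : M t a = (a x t, a z t) := by
          show (if a ∈ At then (a x).prod (a z) else 0 : V →ₗ[ZMod 2] ZMod 2 × ZMod 2) t = _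
          rw [if_pos ha]
          rfl
        rw [e, map_add, map_smul, map_smul, LinearMap.add_apply, LinearMap.smul_apply,
          LinearMap.smul_apply, smul_eq_mul, smul_eq_mul]
        ring
      · intro a ha
        have ha' := (Finset.mem_filter.1 ha).2
        have e : M t a = 0 := by
          show (if a ∈ At then (a x).prod (a z) else 0 : V →ₗ[ZMod 2] ZMod 2 × ZMod 2) t = _
          rw [if_neg ha']
          rfl
        rw [e]
        simp
    have hcomp := ind_all he hN At.card At le_rfl (fun a ha => (hAt a).1 ha)
      (fun a => a (c a • x + d a • z)) (fun a _ => ⟨_, rfl⟩) hrel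
    have h4 : μ y = 0 := by
      rw [hμ]
      apply Finset.sum_eq_zero
      intro a _
      by_cases ha : a ∈ At
      · have e : y a = (a x v, a z w) := if_pos ha
        have h5 := hcomp a ha
        have h6 : a x v = a z w := hxz a ((hAt a).1 ha).1
        have hs := ETSC.R_symm he ((hAt a).1 ha).1
        rw [e]
        show a x v * c a + a z w * d a = 0
        rcases ETSC.z2 (c a) with hc | hc <;> rcases ETSC.z2 (d a) with hd | hd <;>
          simp only [hc, hd, zero_smul, one_smul, zero_add, add_zero] at h5 <;>
          simp only [hc, hd, mul_zero, mul_one, zero_add, add_zero]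
        · rw [h5, LinearMap.zero_apply]
        · rw [h5, LinearMap.zero_apply]
        · rw [h6]
          exact CharTwo.add_self_eq_zero _
      · have e : y a = 0 := if_neg ha
        rw [e]
        simp
    rw [h4] at h2
    exact zero_ne_one h2
  obtain ⟨t, ht⟩ := hy
  have ht1 : ∀ a, PAtom (RS S) a → a x t = a x v ∧ a z t = a z w := by
    intro a ha
    have h1 := congrFun ht a
    have e1 : M t a = (a x t, a z t) := by
      show (if a ∈ At then (a x).prod (a z) else 0 : V →ₗ[ZMod 2] ZMod 2 × ZMod 2) t = _
      rw [if_pos ((hAt a).2 ha)]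
      rfl
    have e2 : y a = (a x v, a z w) := if_pos ((hAt a).2 ha)
    rw [e1, e2] at h1
    exact ⟨congrArg Prod.fst h1, congrArg Prod.snd h1⟩
  have k1 : S.q x t = S.q x v := by
    apply ETCP.q_eq_iff.2
    apply C_of_R he hN
    apply kill he hN
    intro a ha
    rw [map_add, (ht1 a ha).1]
    exact CharTwo.add_self_eq_zero _
  have k2 : S.q z t = S.q z w := by
    apply ETCP.q_eq_iff.2
    apply C_of_R he hN
    apply kill he hN
    intro a ha
    rw [map_add, (ht1 a ha).2]
    exact CharTwo.add_self_eq_zero _
  have k3 : S.q x t = S.q z t := by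
    apply ETCP.q_eq'
    apply C_of_R he hN
    apply kill he hN
    intro a ha
    rw [map_add, LinearMap.add_apply, (ht1 a ha).1, (ht1 a ha).2, hxz a ha.1]
    exact CharTwo.add_self_eq_zero _
  rw [← k1, k3, k2]

end Pool.Agent.H34C
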