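import Pool.Agent.H34C.Dom
import Pool.Agent.H34B.Final

/-!
Independence of the ranges of the perfect atoms, without linkage.
-/

set_option autoImplicit false
set_option linter.unusedSectionVars false
set_option linter.unusedVariables false

namespace Pool.Agent.H34C

open Pool.Agent.ESL Pool.Agent.H34B
open Pool.Agent.Helper58.PLine (QData)
open scoped BigOperators

variable {V Q : Type} [AddCommGroup V] [Module (ZMod 2) V] [Finite V] {S : QData V Q}

/-- the form space -/
def RS (S : QData V Q) : FS V := ETSC.R S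

theorem isAlt (he : S.e = 0) : IsAlt (RS S) := fun k hk x => ETSC.R_alt he hk x

theorem pp_of_Lx {b : ESL.D V} {x : V} (h : b ∈ Lx (RS S) x) : ETSC.PP S b x := by
  obtain ⟨k, hk, rfl⟩ := h
  exact ETSC.PP_of (S := S) hk rfl

theorem Lx_of_pp (he : S.e = 0) (hN : NDc S) {b : ESL.D V} {x : V} (h : ETSC.PP S b x) :
    b ∈ Lx (RS S) x := by
  obtain ⟨k, hk, e⟩ := lemL he hN h
  exact ⟨k, hk, e⟩

theorem PAtom.pa (he : S.e = 0) (hN : NDc S) {w : ESL.Fm V} (hw : PAtom (RS S) w) : PA S w :=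
  ⟨hw.1, hw.2.1, fun q b hb hb0 hp => hw.2.2 q b hb hb0 (Lx_of_pp he hN hp)⟩

/-- domination with constancy -/
theorem domC (he : S.e = 0) (hN : NDc S) {b : ESL.D V} (hb : b ≠ 0) (hx : ∃ x, ETSC.PP S b x) :
    ∃ w, PAtom (RS S) w ∧ (∀ r ∈ RS S, b ∈ LinearMap.range r →
      LinearMap.range w ≤ LinearMap.range r) ∧ Cst S w b := by
  obtain ⟨w, A, hc⟩ := domS he hN hb hx
  refine ⟨w, ⟨A.mem, A.ne, fun q c hcw hc0 hp => A.per q c hcw hc0 (pp_of_Lx hp)⟩, ?_, hc⟩
  rintro r hr ⟨y, hy⟩ _ ⟨z, rfl⟩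
  have h1 : w z ∈ ETSC.Ec S b := by
    apply ETSC.const_mem he
    intro x x' hx hx'
    rw [ETSC.R_symm he A.mem, map_add, hc x x' hx hx', add_self']
    rfl
  obtain ⟨u, hu⟩ := h1 r hr ⟨y, hy⟩
  exact ⟨u, hu⟩

theorem dom (he : S.e = 0) (hN : NDc S) : Dom (RS S) := by
  rintro b hb ⟨x, hx⟩
  obtain ⟨w, h1, h2, _⟩ := domC he hN hb ⟨x, pp_of_Lx hx⟩
  exact ⟨w, h1, h2⟩

/-- if `w` is constant on `P_b`, `b = (w + w') x` and `w' x ≠ 0`, then `w'` is constant there -/
theorem cst_other {w w' : ESL.Fm V} (hw : w ∈ RS S) (hw' : PA S w') {x : V}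
    (hx : w' x ≠ 0) (hc : ∀ z, ETSC.PP S ((w + w') x) z → w z = w x) :
    ∀ z, ETSC.PP S ((w + w') x) z → w' z = w' x := by
  intro z hz
  apply hw'.per z _ ⟨x, rfl⟩ hx
  intro v hv
  have h1 := hz v hv
  have h2 : w z v = 0 := hw z v hv
  rw [hc z hz] at h2
  rw [LinearMap.add_apply, LinearMap.add_apply, h2, zero_add] at h1
  exact h1

/-- every element of `I` lies in the range of an atom inside `I` -/
theorem cover_I (he : S.e = 0) (hN : NDc S) {a b c : ESL.Fm V} (ha : PAtom (RS S) a)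
    (hb : PAtom (RS S) b) (hc : PAtom (RS S) c) (hab : a ≠ b)
    (hac : a ≠ c) (hbc : b ≠ c) (h : LinearMap.range c ≤ LinearMap.range a ⊔ LinearMap.range b)
    {β : ESL.D V} (hβ : β ∈ LinearMap.range a ⊔ LinearMap.range b) (h0 : β ≠ 0) :
    ∃ w, PAtom (RS S) w ∧ LinearMap.range w ≤ LinearMap.range a ⊔ LinearMap.range b ∧
      β ∈ LinearMap.range w := by
  have hA := isAlt (S := S) he
  have hD := dom he hN
  have hs : LinearMap.range (a + b) = LinearMap.range a ⊔ LinearMap.range b := range_pair hA ha hb hab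
  have hs' : LinearMap.range (a + c) = LinearMap.range a ⊔ LinearMap.range b := by
    rw [range_pair hA ha hc hac, sup_comm]
    exact triple hA ha hb hc hab hac hbc h
  have hbc' : LinearMap.range (b + c) = LinearMap.range a ⊔ LinearMap.range b := by
    rw [range_pair hA hb hc hbc]
    exact span_I hA ha hb hab hb hc hbc le_sup_right h
  have hsR := (RS S).add_mem ha.1 hb.1
  have hsR' := (RS S).add_mem ha.1 hc.1
  obtain ⟨x, hx⟩ : β ∈ LinearMap.range (a + b) := by rw [hs]; exact hβ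
  obtain ⟨x', hx'⟩ : β ∈ LinearMap.range (a + c) := by rw [hs']; exact hβ
  have hpx : ETSC.PP S β x := ETSC.PP_of (S := S) hsR hx
  have hpx' : ETSC.PP S β x' := ETSC.PP_of (S := S) hsR' hx'
  obtain ⟨w, hw, hdom, hcst⟩ := domC he hN h0 ⟨x, hpx⟩
  have hwI : LinearMap.range w ≤ LinearMap.range a ⊔ LinearMap.range b := by
    rw [← hs]; exact hdom _ hsR ⟨x, hx⟩
  obtain ⟨hw', hw'I⟩ := add_atom hA hD ha hb hab hsR hs hw hwI
  have hsum : w + ((a + b) + w) = a + b := by
    rw [add_comm (a + b) w, add_add_self]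
  by_cases hz : ((a + b) + w) x = 0
  · refine ⟨w, hw, hwI, x, ?_⟩
    have h1 := congrArg (fun k : ESL.Fm V => k x) hsum
    simp only [LinearMap.add_apply] at h1 hz
    have h2 : (a + b) x = β := hx
    rw [LinearMap.add_apply] at h2
    rw [h2] at hz
    exact (eq_of_add hz).symm
  · exfalso
    have hcc : ∀ z, ETSC.PP S β z → ((a + b) + w) z = ((a + b) + w) x := by
      have h1 := cst_other (S := S) hw.1 (PAtom.pa he hN hw') (x := x) hz (by
        intro z hz'
        rw [hsum, hx] at hz'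
        exact hcst z x hz' hpx)
      rw [hsum, hx] at h1
      exact h1
    have k2 : (a + b) x' = β := by
      rw [← hsum, LinearMap.add_apply, hcst x' x hpx' hpx, hcc x' hpx', ← LinearMap.add_apply, hsum,
        hx]
    have k3 : (b + c) x' = 0 := by
      have e : b + c = (a + b) + (a + c) := by
        rw [add_comm a b, add_assoc, add_add_self]
      rw [e, LinearMap.add_apply, k2, hx', add_self']
    have k4 : (a + b) x' = 0 := by
      have h1 : LinearMap.range (a + b) ≤ LinearMap.range (b + c) := by rw [hs, hbc']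
      exact (range_le_iff (hA _ hsR) (hA _ ((RS S).add_mem hb.1 hc.1))).1 h1 k3
    exact h0 (k2 ▸ k4)

/-- no atom lies inside the sum of two others -/
theorem no_triple (he : S.e = 0) (hN : NDc S) {a b c : ESL.Fm V} (ha : PAtom (RS S) a)
    (hb : PAtom (RS S) b) (hc : PAtom (RS S) c) (hab : a ≠ b)
    (hac : a ≠ c) (hbc : b ≠ c) (h : LinearMap.range c ≤ LinearMap.range a ⊔ LinearMap.range b) :
    False := by
  classical
  have hA := isAlt (S := S) he
  have hD := dom he hN
  have : Fintype (ESL.D V) := Fintype.ofFinite _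
  have : Fintype (ESL.Fm V) := Fintype.ofFinite _
  let Om : Finset (ESL.Fm V) := Finset.univ.filter (fun w => PAtom (RS S) w ∧
    LinearMap.range w ≤ LinearMap.range a ⊔ LinearMap.range b)
  have hOm : ∀ w, w ∈ Om ↔ PAtom (RS S) w ∧
      LinearMap.range w ≤ LinearMap.range a ⊔ LinearMap.range b := by
    intro w; simp [Om]
  have hs := range_pair hA ha hb hab
  have hsR := (RS S).add_mem ha.1 hb.1
  have hs0 : a + b ≠ 0 := fun he => hab (eq_of_add he)
  have h1 : ∑ w ∈ Om, (1 : ZMod 2) = 0 := by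
    apply Finset.sum_involution (fun w _ => (a + b) + w)
    · intro w hw; decide
    · intro w hw _ he
      apply hs0
      have := congrArg (fun t => t + w) he
      simpa [add_add_self', add_self'] using this
    · intro w hw
      rw [hOm] at hw ⊢
      exact add_atom hA hD ha hb hab hsR hs hw.1 hw.2
    · intro w hw
      exact add_add_self _ _
  have h2 : Finset.univ.filter (fun β : ESL.D V => β ∈ LinearMap.range a ⊔ LinearMap.range b ∧ β ≠ 0) =
      Om.biUnion (fun w => Finset.univ.filter (fun β : ESL.D V => β ∈ LinearMap.range w ∧ β ≠ 0)) := by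
    ext β
    simp only [Finset.mem_filter, Finset.mem_univ, true_and, Finset.mem_biUnion]
    constructor
    · rintro ⟨hβ, h0⟩
      obtain ⟨w, hw, hwI, hβw⟩ := cover_I he hN ha hb hc hab hac hbc h hβ h0
      exact ⟨w, (hOm w).2 ⟨hw, hwI⟩, hβw, h0⟩
    · rintro ⟨w, hw, hβw, h0⟩
      exact ⟨((hOm w).1 hw).2 hβw, h0⟩
  have h3 := congrArg (fun t : Finset (ESL.D V) => (t.card : ZMod 2)) h2
  rw [Finset.card_biUnion (by
    intro w hw w' hw' hne
    rw [Function.onFun, Finset.disjoint_left]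
    intro β hβ hβ'
    simp only [Finset.mem_filter, Finset.mem_univ, true_and] at hβ hβ'
    exact hne (atom_eq hA ((hOm w).1 hw).1 ((hOm w').1 hw').1 hβ.2 hβ.1 hβ'.1)), Nat.cast_sum,
    Finset.sum_congr rfl (fun w hw => card_nz_odd (LinearMap.range w) ((hOm w).1 hw).1.nz), h1] at h3
  obtain ⟨β, hβ, h0⟩ := ha.nz
  rw [card_nz_odd _ ⟨β, Submodule.mem_sup_left hβ, h0⟩] at h3
  exact one_ne_zero h3

end Pool.Agent.H34C
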