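import Pool.Agent.H34C.Emb
import Pool.Agent.H34B.Grp3

/-!
Finite quaternionic structures with `-1 = 1` without sharp subgroups, without any hypothesis on the
set of quaternions.
-/

set_option linter.unusedSectionVars false
set_option linter.unusedVariables false

namespace Pool.Agent.H34C

open QS Pool.Agent.ESL Pool.Agent.H34B
open Pool.Agent.Helper58.PLine (QData)

attribute [local instance] J1X.mdl

variable (S : QStruct)

/-- no sharp subgroup: on every `P_β` more than `0` and `β` is constant -/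
theorem ndc_of_not_sharp [Finite S.G] (hH : ∀ H, ¬ Sharp S H) : NDc (dt S) := by
  have hf : Finite (Additive S.G) := (inferInstance : Finite S.G)
  intro β hβ hx
  obtain ⟨x, hx⟩ := hx
  have h1 := hH (kerG S β)
  have hne : (PSet S (kerG S β)).Nonempty := ⟨x.toMul, hx⟩
  have h2 : ¬ kerG S β ≤ Subgroup.closure {z | ∃ x ∈ PSet S (kerG S β), ∃ y ∈ PSet S (kerG S β), x * y = z} :=
    fun hc => h1 ⟨index_kerG S hβ, hne, hc⟩
  obtain ⟨h, hh, hhn⟩ := SetLike.not_le_iff_exists.1 h2
  let K := Subgroup.closure {z | ∃ x ∈ PSet S (kerG S β), ∃ y ∈ PSet S (kerG S β), x * y = z}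
  obtain ⟨μ, hμ, hμ1⟩ := exists_sep (W := toSub S K) (x := Additive.ofMul h) hhn
  refine ⟨μ, ?_, ?_, ?_⟩
  · intro a b ha hb
    apply hμ (a + b)
    have h3 : a.toMul * b.toMul ∈ K := Subgroup.subset_closure ⟨a.toMul, ha, b.toMul, hb, rfl⟩
    exact h3
  · rintro rfl
    exact zero_ne_one hμ1
  · rintro rfl
    rw [mem_kerG, hμ1] at hh
    exact one_ne_zero hh

/-- a structure without sharp subgroups is separated by its forms -/
theorem emb_of_not_sharp [Finite S.G] (hneg : S.neg = 1) (hH : ∀ H, ¬ Sharp S H) :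
    ETSC.Emb (dt S) :=
  haveI hf : Finite (Additive S.G) := (inferInstance : Finite S.G)
  emb (dt_e S hneg) (ndc_of_not_sharp S hH)

/-- **the theorem** -/
theorem main (hf : Finite S.G) (hneg : S.neg = 1) :
    (LocalProd S ↔ ∀ H : Subgroup S.G, ¬ Sharp S H) ∧
    (LocalProd S ↔ Triple S) ∧ (LocalProd S → ElemType S) := by
  have h1 : (∀ H : Subgroup S.G, ¬ Sharp S H) → LocalProd S ∧ ElemType S := by
    intro hH
    have hE := emb_of_not_sharp S hneg hH
    have hN := nd_of_not_sharp S hneg hH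
    exact ⟨localProd_of_nd S hneg hE hN, elemType_of_nd S hneg hE hN⟩
  exact ⟨⟨fun h => not_sharp_of_localProd S hneg h, fun h => (h1 h).1⟩,
    ⟨fun h => triple_of_localProd S hneg h, fun h => (h1 (not_sharp_of_triple S hneg h)).1⟩,
    fun h => (h1 (not_sharp_of_localProd S hneg h)).2⟩

end Pool.Agent.H34C
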