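import Pool.Agent.H34C.Main

/-!
Finite quaternionic structures with `-1 = 1` without sharp subgroups are direct products of structures
with at most two quaternions.
-/

namespace Pool.Agent.Results.MP_d26ff6_al.SharpTheorem

open QS

/-- `x ∈ PSet S H` iff `D⟨1, -x⟩ = {y | q (x, y) = 0}` is contained in `H`. -/
def PSet (S : QStruct) (H : Subgroup S.G) : Set S.G := {x | ∀ y, S.q x y = S.zero → y ∈ H}

/-- `H` is a sharp subgroup: it has index `2`, `PSet S H` is nonempty, and the products `x * y` of
two elements of `PSet S H` generate a group containing `H` (for `-1 = 1` these products lie in `H`). -/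
def Sharp (S : QStruct) (H : Subgroup S.G) : Prop :=
  H.index = 2 ∧ (PSet S H).Nonempty ∧
    H ≤ Subgroup.closure {z | ∃ x ∈ PSet S H, ∃ y ∈ PSet S H, x * y = z}

/-- The triple law `D⟨1, -abc⟩ ⊆ D⟨1, -a⟩ * D⟨1, -b⟩ * D⟨1, -c⟩`. -/
def Triple (S : QStruct) : Prop :=
  ∀ a b c y, S.q (a * b * c) y = S.zero →
    ∃ u v w, S.q a u = S.zero ∧ S.q b v = S.zero ∧ S.q c w = S.zero ∧ y = u * v * w

/-- `S` is a direct product of structures with at most two quaternions: there are biadditive maps
`ω_1, ..., ω_k : G × G → F_2` with `q (a, b) = q (c, d)` iff `ω_i (a, b) = ω_i (c, d)` for all `i`,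
and they are independent: for all `x_1, ..., x_k` there is `y` with `ω_i (y, -) = ω_i (x_i, -)` for
all `i`. -/
def LocalProd (S : QStruct) : Prop :=
  ∃ (k : ℕ) (ω : Fin k → S.G → S.G → ZMod 2),
    (∀ i a b c, ω i (a * b) c = ω i a c + ω i b c) ∧
    (∀ i a b c, ω i a (b * c) = ω i a b + ω i a c) ∧
    (∀ a b c d, S.q a b = S.q c d ↔ ∀ i, ω i a b = ω i c d) ∧
    ∀ x : Fin k → S.G, ∃ y, ∀ i v, ω i y v = ω i (x i) v

/-- For a finite quaternionic structure with `-1 = 1` the following are equivalent: it is a direct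
product of structures with at most two quaternions; it has no sharp subgroup; it satisfies the triple
law.  In this case it is of elementary type. -/
theorem result (S : QStruct) (hf : Finite S.G) (hneg : S.neg = 1) :
    (LocalProd S ↔ ∀ H : Subgroup S.G, ¬ Sharp S H) ∧
    (LocalProd S ↔ Triple S) ∧ (LocalProd S → ElemType S) :=
  Pool.Agent.H34C.main S hf hneg

end Pool.Agent.Results.MP_d26ff6_al.SharpTheorem
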