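import Pool.Agent.H34C.Cos

/-!
Transitivity.
-/

set_option autoImplicit false
set_option linter.unusedSectionVars false
set_option linter.unusedVariables false

namespace Pool.Agent.H34C

open QS
open Pool.Agent.Helper58.PLine (QData)
open Pool.Agent.ETCP
open Pool.Agent.ETSC

variable {V Q : Type} [AddCommGroup V] [Module (ZMod 2) V] {S : QData V Q}

/-- `κ` is constant on `P_μ`: the sums over a coset -/
theorem Zz_const [Fintype V] {ω : Fm V} {κ μ : Dl V} {c : ZMod 2} (hc : ∀ a, PP S μ a → κ a = c)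
    (b : V) : Z S ω S.z κ μ b = sg c * Z S ω S.z 0 μ b := by
  classical
  unfold Z
  rw [Finset.mul_sum]
  apply Finset.sum_congr rfl
  intro a _
  by_cases h : ω a = ω b
  · rw [if_pos h, if_pos h, LinearMap.zero_apply, sg_zero, one_mul]
    by_cases h1 : PP S μ a
    · rw [hc a h1]
    · rw [inn_not h1, mul_zero, mul_zero]
  · rw [if_neg h, if_neg h, mul_zero]

/-- the absolute value of a twisted sum -/
theorem Zz_abs [Fintype V] (ω : Fm V) (κ μ : Dl V) (b : V) :
    |Z S ω S.z κ μ b| ≤ Z S ω S.z 0 μ b := by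
  classical
  unfold Z
  refine (Finset.abs_sum_le_sum_abs _ _).trans (Finset.sum_le_sum ?_)
  intro a _
  by_cases h : ω a = ω b
  · rw [if_pos h, if_pos h, LinearMap.zero_apply, sg_zero, one_mul, abs_mul, abs_of_nonneg (inn_z μ a)]
    rcases sg_cases (κ a) with h1 | h1 <;> rw [h1] <;> simp
  · rw [if_neg h, if_neg h, abs_zero]

/-- `κ` constant on `P_μ ≠ ∅` implies `P_κ ≠ ∅` -/
theorem ex_of_const [Finite V] {κ μ : Dl V} {c : ZMod 2} (hc : ∀ a, PP S μ a → κ a = c) {x : V}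
    (hx : PP S μ x) : ∃ y, PP S κ y := by
  classical
  have := Fintype.ofFinite V
  by_contra hn
  push Not at hn
  have h1 : Ph S S.z κ μ = 0 := by
    rw [Ph_symm, Ph_inn]
    exact Finset.sum_eq_zero fun a _ => by rw [inn_not (hn a), mul_zero]
  have h2 : Ph S S.z κ μ = sg c * ∑ a : V, inn S S.z μ a := by
    rw [Ph_inn, Finset.mul_sum]
    apply Finset.sum_congr rfl
    intro a _
    by_cases h : PP S μ a
    · rw [hc a h]
    · rw [inn_not h, mul_zero, mul_zero]
  have h3 : 0 < ∑ a : V, inn S S.z μ a :=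
    Finset.sum_pos' (fun a _ => inn_z μ a) ⟨x, Finset.mem_univ _, inn_z_pos hx⟩
  rw [h1] at h2
  rcases sg_cases c with h | h <;> rw [h] at h2 <;> omega

/-- **Lemma T** -/
theorem lemT [Finite V] (he : S.e = 0) {ω : Fm V} (A : PA S ω) {κ μ : Dl V} {c : ZMod 2}
    {x : V} (hx : PP S μ x) (hc : ∀ a, PP S μ a → κ a = c) (hk : Cst S ω κ) : Cst S ω μ := by
  classical
  have := Fintype.ofFinite V
  apply cst_of he A
  intro d0 hd0 hpd0
  obtain ⟨x0, hx0⟩ := ex_of_const hc hx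
  have hg0 : ω x0 ≠ 0 := hk.ne he A hx0
  obtain ⟨h, hh⟩ : ∃ h, ω x0 h = 1 := by
    by_contra hn
    push Not at hn
    apply hg0
    apply LinearMap.ext
    intro v
    exact (z2 _).resolve_right (hn v)
  -- the kernel does not meet `P_κ`
  have hkD : ∀ d, ω d = 0 → ¬ PP S κ d := fun d h1 h2 => hk.ne he A h2 h1
  have hZk : Z S ω S.z 0 κ 0 = 0 := by
    by_contra hn
    obtain ⟨y, a, _, b⟩ := Z0_ne hn
    rw [map_zero] at b
    exact hkD y b a
  have t0 := Z_two he A (nul_z A.mem) κ x0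
  have s0 : 0 < Z S ω S.z 0 κ x0 := Zz_pos hx0 rfl
  obtain ⟨d1, a1, b1⟩ := Zz_ex (show 0 < Z S ω S.z 0 (κ + ω x0) 0 by omega)
  rw [map_zero] at b1
  -- Step 1
  have st1 : ∀ d, ω d ≠ ω x0 → ∀ y, ω y = 0 → ¬ PP S (κ + ω d) y := by
    intro d hd y hy hp
    obtain ⟨z, z1, z2⟩ := lemC he A b1 hy a1 hp (fun h => hd h.symm)
    exact hkD z z1 z2
  have st1' : ∀ d, ω d ≠ ω x0 → ∀ y, PP S (κ + ω d) y → ω y = ω (d + x0) := by
    intro d hd y hp
    have t := Z_two he A (nul_z A.mem) (κ + ω d) y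
    have s : 0 < Z S ω S.z 0 (κ + ω d) y := Zz_pos hp rfl
    have z : Z S ω S.z 0 (κ + ω d) 0 = 0 := by
      by_contra hn
      obtain ⟨u, a, _, b⟩ := Z0_ne hn
      rw [map_zero] at b
      exact st1 d hd u b a
    obtain ⟨u, a, b⟩ := Zz_ex (show 0 < Z S ω S.z 0 (κ + ω d + ω y) 0 by omega)
    rw [map_zero] at b
    by_contra hn
    apply st1 (d + y) ?_ u b
    · rw [map_add, ← add_assoc]
      exact a
    · intro h'
      apply hn
      rw [map_add] at h' ⊢
      rw [← h', ← add_assoc, ZModModule.add_self, zero_add]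
  -- Step 2
  have st2 : ∀ d, ω d ≠ ω x0 →
      Ph S S.z (κ + ω d) (μ + ω h) = -sg (ω d h) * Ph S S.z (κ + ω d) μ := by
    intro d hd
    rw [Ph_symm, Ph_symm S.z (κ + ω d) μ, Ph_inn, Ph_inn, Finset.mul_sum]
    apply Finset.sum_congr rfl
    intro a _
    by_cases h0 : inn S S.z (κ + ω d) a = 0
    · rw [h0, mul_zero, mul_zero, mul_zero]
    · have h1 := (inn_ne h0).1
      have h2 : ω h a = ω d h + 1 := by
        rw [R_symm he A.mem h a, st1' d hd a h1, map_add, LinearMap.add_apply, hh]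
      rw [LinearMap.add_apply, sg_add, h2, sg_add, sg_one]
      ring
  set N : ℤ := (Fintype.card V : ℤ) with hN
  set a : ℤ := Ph S S.z (κ + ω x0) μ with ha
  set b : ℤ := Ph S S.z (κ + ω x0) (μ + ω h) with hb
  set K : ℤ := ∑ d : V, if ω d = ω x0 then b - a else 0 with hK
  have key : ∀ u : V, N * Z S ω S.z κ (μ + ω h) u =
      -(N * Z S ω S.z κ μ (u + h)) + sg (ω x0 u) * K := by
    intro u
    rw [hN, Z_inv he A.mem, Z_inv he A.mem, hK, Finset.mul_sum, ← Finset.sum_neg_distrib,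
      ← Finset.sum_add_distrib]
    apply Finset.sum_congr rfl
    intro d _
    by_cases hd : ω d = ω x0
    · rw [if_pos hd, hd, ← ha, ← hb, map_add, hh, sg_add, sg_one]
      ring
    · rw [if_neg hd, st2 d hd, map_add, sg_add]
      ring
  have hpos : 0 < N := by
    rw [hN]
    exact_mod_cast Fintype.card_pos
  have k1 := key 0
  have k2 := key h
  rw [zero_add, map_zero, sg_zero, one_mul] at k1
  rw [ZModModule.add_self, Z_per (nul_z A.mem), hh, sg_one] at k2
  rw [Zz_const hc] at k1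
  rw [Zz_const hc, Zz_const hc] at k2
  have hv : sg c = 1 ∨ sg c = -1 := sg_cases c
  have ab := Zz_abs (S := S) ω κ (μ + ω h) 0
  have tt := Z_two he A (nul_z A.mem) μ h
  have m0 : 0 < Z S ω S.z 0 μ 0 := Zz_pos hpd0 (by rw [hd0, map_zero])
  have m1 := Zz_nonneg (S := S) ω μ h
  set z0 : ℤ := Z S ω S.z 0 μ 0
  set zh : ℤ := Z S ω S.z 0 μ h
  set y0 : ℤ := Z S ω S.z 0 (μ + ω h) 0
  set w : ℤ := Z S ω S.z κ (μ + ω h) 0
  have k3 : N * w = N * (-sg c * (2 * zh + z0)) := by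
    have e1 : K = -(N * (sg c * z0)) - N * (sg c * zh) := by linarith
    rw [k1, e1]
    ring
  have k4 : w = -sg c * (2 * zh + z0) := mul_left_cancel₀ hpos.ne' k3
  rw [k4, abs_mul, abs_neg] at ab
  have e2 : |sg c| = 1 := by rcases hv with h1 | h1 <;> rw [h1] <;> simp
  rw [e2, one_mul, abs_of_nonneg (by omega)] at ab
  omega

end Pool.Agent.H34C
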